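import Pool.Agent.helper62.EN.SpecA

/-!
# Row ksy:SMP (MP_07c750_an): averages over the flow
-/

set_option autoImplicit false

open MeasureTheory Set Filter Topology

namespace Pool.Agent.EN

theorem SMP_meas {X : Type} [TopologicalSpace X] [SecondCountableTopology X] [MeasurableSpace X] [BorelSpace X]
    {f : ℝ → X → X} (hf : FlowOn f) : Measurable fun q : ℝ × X => f q.1 q.2 := hf.cont.measurable

theorem SMP_vol : IsProbabilityMeasure ((volume : Measure ℝ).restrict (Icc 0 1)) := by
  constructor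
  rw [Measure.restrict_apply_univ, Real.volume_Icc]
  norm_num

theorem SMP_prob {X : Type} [TopologicalSpace X] [SecondCountableTopology X] [MeasurableSpace X] [BorelSpace X]
    {f : ℝ → X → X} (hf : FlowOn f) (ρ : Measure X) [IsProbabilityMeasure ρ] : IsProbabilityMeasure (sm f ρ) := by
  have h := SMP_vol
  exact Measure.isProbabilityMeasure_map (SMP_meas hf).aemeasurable

theorem SMP_av {X : Type} [MeasurableSpace X] (T : X → X) (n : ℕ) (ρ : Measure X) [IsProbabilityMeasure ρ] (hn : 1 ≤ n)
    (hT : Measurable T) : IsProbabilityMeasure (av T n ρ) := by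
  constructor
  unfold av
  rw [Measure.smul_apply, Measure.finsetSum_apply]
  have h : ∀ i ∈ Finset.range n, (ρ.map (T^[i])) univ = 1 := by
    intro i _
    rw [Measure.map_apply (hT.iterate i) MeasurableSet.univ, preimage_univ, measure_univ]
  rw [Finset.sum_congr rfl h, Finset.sum_const, Finset.card_range, nsmul_eq_mul, mul_one, smul_eq_mul]
  exact ENNReal.inv_mul_cancel (by exact_mod_cast (by omega : n ≠ 0)) (ENNReal.natCast_ne_top n)

theorem SMP_int {X : Type} [TopologicalSpace X] [SecondCountableTopology X] [MeasurableSpace X] [BorelSpace X]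
    {f : ℝ → X → X} (hf : FlowOn f) (ρ : Measure X) [IsProbabilityMeasure ρ] (Ψ : X → ℝ) (m : ℝ) (hΨ : Measurable Ψ)
    (hm : ∀ x, |Ψ x| ≤ m) : ∫ x, Ψ x ∂(sm f ρ) = ∫ s in (0 : ℝ)..1, ∫ x, Ψ (f s x) ∂ρ := by
  have h := SMP_vol
  unfold sm
  rw [integral_map (SMP_meas hf).aemeasurable hΨ.aestronglyMeasurable, integral_prod,
    intervalIntegral.integral_of_le zero_le_one, integral_Icc_eq_integral_Ioc]
  refine Integrable.of_bound (hΨ.comp (SMP_meas hf)).aestronglyMeasurable m (Eventually.of_forall fun q => ?_)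
  rw [Real.norm_eq_abs]
  exact hm _

theorem SMP_iter {X : Type} [TopologicalSpace X] {f : ℝ → X → X} (hf : FlowOn f) (i : ℕ) (x : X) :
    (f 1)^[i] x = f i x := by
  induction i with
  | zero =>
    rw [Function.iterate_zero, Nat.cast_zero, hf.zero]
    rfl
  | succ k ih =>
    rw [Function.iterate_succ_apply', ih, ← hf.add]
    congr 1
    push_cast
    ring

theorem SMP_proof : SMP_stmt := by
  intro X _ _ _ _ _ _ f ρ hf hρ
  refine ⟨SMP_prob hf ρ, fun n T hn hT => SMP_av T n ρ hn hT, fun Ψ m hΨ hm => SMP_int hf ρ Ψ m hΨ hm, ?_⟩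
  intro V n hV hn
  have hfm : ∀ t, Continuous (f t) := fun t => hf.cont.comp (Continuous.prodMk_right t)
  have hprob := SMP_prob hf ρ
  obtain ⟨m, hm⟩ : ∃ m, ∀ x, |V x| ≤ m := by
    obtain ⟨m, hm⟩ := (isCompact_range hV).isBounded.exists_norm_le
    exact ⟨m, fun x => hm (V x) ⟨x, rfl⟩⟩
  have hiter : ∀ i : ℕ, (f 1)^[i] = f i := fun i => funext fun x => SMP_iter hf i x
  have hmi : ∀ i : ℕ, Measurable ((f 1)^[i]) := fun i => by rw [hiter]; exact (hfm i).measurable
  have hcont : Continuous fun t : ℝ => ∫ x, V (f t x) ∂ρ := by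
    refine continuous_of_dominated (bound := fun _ => m) (fun t => (hV.comp (hfm t)).aestronglyMeasurable)
      (fun t => Eventually.of_forall fun x => ?_) (integrable_const m) (Eventually.of_forall fun x => ?_)
    · rw [Real.norm_eq_abs]
      exact hm _
    · exact hV.comp (hf.cont.comp (Continuous.prodMk_left x))
  have h1 : ∀ i ∈ Finset.range n, ∫ x, V x ∂((sm f ρ).map ((f 1)^[i])) =
      ∫ t in (i : ℝ)..((i + 1 : ℕ) : ℝ), ∫ x, V (f t x) ∂ρ := by
    intro i _
    rw [integral_map (hmi i).aemeasurable hV.aestronglyMeasurable,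
      SMP_int hf ρ (fun x => V ((f 1)^[i] x)) m (hV.measurable.comp (hmi i)) (fun x => hm _)]
    have h2 : ∀ s : ℝ, ∫ x, V ((f 1)^[i] (f s x)) ∂ρ = (fun t : ℝ => ∫ x, V (f t x) ∂ρ) (s + i) := by
      intro s
      have h3 : ∀ x, (f 1)^[i] (f s x) = f (s + i) x := by
        intro x
        rw [SMP_iter hf, ← hf.add, add_comm]
      simp only [h3]
    simp only [h2]
    rw [intervalIntegral.integral_comp_add_right (fun t : ℝ => ∫ x, V (f t x) ∂ρ) (i : ℝ)]
    push_cast
    rw [zero_add, add_comm]
  unfold av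
  rw [integral_smul_measure, integral_finsetSum_measure, Finset.sum_congr rfl h1,
    intervalIntegral.sum_integral_adjacent_intervals (a := fun k : ℕ => (k : ℝ)) (fun k _ => hcont.intervalIntegrable _ _)]
  · rw [ENNReal.toReal_inv, ENNReal.toReal_natCast, smul_eq_mul, Nat.cast_zero, one_div]
  · intro i _
    have hp : IsProbabilityMeasure ((sm f ρ).map ((f 1)^[i])) := Measure.isProbabilityMeasure_map (hmi i).aemeasurable
    refine Integrable.of_bound hV.aestronglyMeasurable m (Eventually.of_forall fun q => ?_)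
    rw [Real.norm_eq_abs]
    exact hm _

end Pool.Agent.EN
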