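import Pool.Agent.helper25.EN.Spec

set_option autoImplicit false

namespace EN

open Finset Real

theorem RB_adp {m : ℕ} (S : ℕ → Om m → Finset (Fin m)) (h : Rounds S) (j : ℕ) (x y : Om m)
    (hxy : ∀ u ∈ S j x, y u = x u) : S j y = S j x := by
  cases j with
  | zero => rw [h.1 x, h.1 y]
  | succ i => exact (h.2 i x).2 y fun u hu => hxy u ((h.2 i x).1 hu)

theorem RB_np {m : ℕ} (v : Fin m) : v ∉ pa v := by simp [pa]

theorem RB_ex {m : ℕ} (T : Om m → Finset (Fin m)) (g : Om m → Fin m → ℝ) :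
    ∑ x, ∑ v ∈ T x, g x v = ∑ v, ∑ x ∈ univ.filter (fun x => v ∈ T x), g x v := by
  apply Finset.sum_comm'
  intro x v
  simp

theorem RB_le_w {m : ℕ} (Q : Om m → ℝ) (hQ : Law Q) (C : Finset (Fin m)) (x : Om m) : Q x ≤ w Q C x := by
  unfold w
  exact Finset.single_le_sum (f := Q) (fun y _ => hQ.1 y) (mem_filter.2 ⟨mem_univ x, fun u _ => rfl⟩)

theorem RB_w_empty {m : ℕ} (Q : Om m → ℝ) (hQ : Law Q) (x : Om m) : w Q ∅ x = 1 := by
  unfold w
  rw [← hQ.2]
  congr 1
  ext y
  simp

/-- The telescoping identity for one configuration. -/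
theorem RB_tel (tls : TLS_stmt) {m : ℕ} (Q : Om m → ℝ) (hQ : Law Q) (x : Om m) (hx : 0 < Q x)
    (T : Finset (Fin m)) :
    ∑ v ∈ univ \ T, (log (a Q (T ∪ pa v) v x) - log (a Q (pa v) v x)) =
      ∑ v ∈ T, log (a Q (pa v) v x) - log (w Q T x) := by
  have t1 := tls m Q hQ x hx T univ (subset_univ _)
  have t2 := tls m Q hQ x hx ∅ univ (empty_subset _)
  simp only [univ_inter, empty_union, sdiff_empty] at t1 t2
  rw [RB_w_empty Q hQ x, log_one, zero_add] at t2
  have t3 := Finset.sum_sdiff (f := fun v => log (a Q (pa v) v x)) (subset_univ T)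
  rw [sum_sub_distrib]
  linarith

theorem RB_round (acp : ACP_stmt) (lg : LOG_stmt) {m : ℕ} (Q : Om m → ℝ) (hQ : Law Q)
    (S : ℕ → Om m → Finset (Fin m)) (hS : Rounds S) (i : ℕ) :
    ∑ x, Q x * ∑ v ∈ S (i + 1) x \ S i x, log (2 * a Q (pa v) v x) ≤ G Q S i := by
  have hA : ∀ (x : Om m) (C : Finset (Fin m)) (v : Fin m), v ∉ C → 0 < Q x → 0 < a Q C v x :=
    fun x C v hv hx => (((acp m Q hQ C v x).2.2.2.2.2.2 hv).2.2.2 hx).1
  unfold G
  simp only [mul_sum]
  rw [RB_ex (fun x => S (i + 1) x \ S i x) (fun x v => Q x * log (2 * a Q (pa v) v x)),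
    RB_ex (fun x => S (i + 1) x \ S i x) (fun x v => Q x * phi (a Q (S i x ∪ pa v) v x))]
  apply sum_le_sum
  intro v _
  have key := lg m Q hQ v (fun _ => pa v) (fun x => S i x ∪ pa v)
    (univ.filter (fun x => v ∈ S (i + 1) x \ S i x)) (by
      intro x hx
      have h1 := (mem_filter.1 hx).2
      rw [mem_sdiff] at h1
      refine ⟨?_, subset_union_right, fun y _ => rfl, ?_⟩
      · rw [mem_union, not_or]
        exact ⟨h1.2, RB_np v⟩
      · intro y hy
        have e1 : S i y = S i x := RB_adp S hS i x y fun u hu => hy u (mem_union_left _ hu)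
        have e2 : S (i + 1) y = S (i + 1) x := (hS.2 i x).2 y fun u hu => hy u (mem_union_left _ hu)
        refine ⟨by simp only [e1], ?_⟩
        rw [mem_filter, e1, e2, mem_sdiff]
        exact ⟨mem_univ _, h1⟩)
  obtain ⟨k1, _, k3⟩ := key
  rw [← k1]
  have hsplit : ∀ (C : Om m → Finset (Fin m)), (∀ x ∈ univ.filter (fun x => v ∈ S (i + 1) x \ S i x), v ∉ C x) →
      ∑ x ∈ univ.filter (fun x => v ∈ S (i + 1) x \ S i x), Q x * log (2 * a Q (C x) v x) =
        (∑ x ∈ univ.filter (fun x => v ∈ S (i + 1) x \ S i x), Q x * log 2) +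
          ∑ x ∈ univ.filter (fun x => v ∈ S (i + 1) x \ S i x), Q x * log (a Q (C x) v x) := by
    intro C hC
    rw [← sum_add_distrib]
    apply sum_congr rfl
    intro x hx
    rcases (hQ.1 x).lt_or_eq with h | h
    · rw [log_mul two_ne_zero (hA x (C x) v (hC x hx) h).ne']
      ring
    · rw [← h]
      simp
  have s1 := hsplit (fun _ => pa v) (fun x _ => RB_np v)
  have s2 := hsplit (fun x => S i x ∪ pa v) (by
    intro x hx
    have h1 := (mem_filter.1 hx).2
    rw [mem_sdiff] at h1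
    rw [mem_union, not_or]
    exact ⟨h1.2, RB_np v⟩)
  rw [s1, s2]
  linarith

theorem RB_sum {m : ℕ} (Q : Om m → ℝ) (S : ℕ → Om m → Finset (Fin m)) (hS : Rounds S)
    (f : Om m → Fin m → ℝ) : ∀ j : ℕ, ∑ x, Q x * ∑ v ∈ S j x, f x v =
      ∑ i ∈ range j, ∑ x, Q x * ∑ v ∈ S (i + 1) x \ S i x, f x v := by
  intro j
  induction j with
  | zero =>
    rw [range_zero, sum_empty]
    apply sum_eq_zero
    intro x _
    rw [hS.1 x, sum_empty, mul_zero]
  | succ j ih =>
    rw [sum_range_succ, ← ih, ← sum_add_distrib]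
    apply sum_congr rfl
    intro x _
    rw [← mul_add, ← Finset.sum_sdiff (hS.2 j x).1]
    ring

theorem RB (acp : ACP_stmt) (tls : TLS_stmt) (lg : LOG_stmt) (inq : INQ_stmt) : RB_stmt := by
  intro m Q hQ S hS j
  have _ := inq
  have hA : ∀ (x : Om m) (v : Fin m), 0 < Q x → 0 < a Q (pa v) v x :=
    fun x v hx => (((acp m Q hQ (pa v) v x).2.2.2.2.2.2 (RB_np v)).2.2.2 hx).1
  have hD : D Q S j = ∑ x, Q x * ∑ v ∈ univ \ S j x,
      (log (a Q (S j x ∪ pa v) v x) - log (a Q (pa v) v x)) := by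
    unfold D
    simp only [mul_sum]
    rw [RB_ex (fun x => univ \ S j x) (fun x v => Q x * kl (a Q (S j x ∪ pa v) v x) (a Q (pa v) v x)),
      RB_ex (fun x => univ \ S j x) (fun x v => Q x * (log (a Q (S j x ∪ pa v) v x) - log (a Q (pa v) v x)))]
    apply sum_congr rfl
    intro v _
    have key := lg m Q hQ v (fun _ => pa v) (fun x => S j x ∪ pa v)
      (univ.filter (fun x => v ∈ univ \ S j x)) (by
        intro x hx
        have h1 := (mem_filter.1 hx).2
        rw [mem_sdiff] at h1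
        refine ⟨?_, subset_union_right, fun y _ => rfl, ?_⟩
        · rw [mem_union, not_or]
          exact ⟨h1.2, RB_np v⟩
        · intro y hy
          have e1 : S j y = S j x := RB_adp S hS j x y fun u hu => hy u (mem_union_left _ hu)
          refine ⟨by simp only [e1], ?_⟩
          rw [mem_filter, e1, mem_sdiff]
          exact ⟨mem_univ _, h1⟩)
    exact key.2.1.symm
  have hDK : D Q S j + KT Q (S j) = ∑ x, Q x * ∑ v ∈ S j x, log (2 * a Q (pa v) v x) := by
    rw [hD]
    unfold KT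
    rw [← sum_add_distrib]
    apply sum_congr rfl
    intro x _
    rcases (hQ.1 x).lt_or_eq with h | h
    · have hw : 0 < w Q (S j x) x := h.trans_le (RB_le_w Q hQ _ x)
      rw [RB_tel tls Q hQ x h (S j x), log_mul (by positivity) hw.ne', log_pow]
      have e : ∑ v ∈ S j x, log (2 * a Q (pa v) v x) =
          (#(S j x) : ℝ) * log 2 + ∑ v ∈ S j x, log (a Q (pa v) v x) := by
        rw [← nsmul_eq_mul, ← sum_const, ← sum_add_distrib]
        apply sum_congr rfl
        intro v _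
        rw [log_mul two_ne_zero (hA x v h).ne']
      rw [e]
      ring
    · rw [← h]
      simp
  rw [hDK, RB_sum Q S hS (fun x v => log (2 * a Q (pa v) v x)) j]
  exact sum_le_sum fun i _ => RB_round acp lg Q hQ S hS i

end EN
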