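import Pool.Agent.helper80.EN.Spec3
import Pool.Agent.helper80.EN.BAS

/-! # MP_202db4: row GBS (Gruenberg: bounded left Engel elements of solvable groups) -/

set_option autoImplicit false

namespace Pool.Agent.helper80.EN

open Subgroup
open scoped commutatorElement

universe u

variable {G : Type u} [Group G]

theorem GBS_com_mul (x y a : G) (h : (a⁻¹ * x * a) * y = y * (a⁻¹ * x * a)) (h' : x * y = y * x) :
    com (x * y) a = com x a * com y a := by
  have h2 : y⁻¹ * (x⁻¹ * (a⁻¹ * x * a)) = x⁻¹ * (a⁻¹ * x * a) * y⁻¹ := by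
    have e1 : y⁻¹ * x⁻¹ = x⁻¹ * y⁻¹ := by
      rw [← mul_inv_rev, ← mul_inv_rev, h']
    have e2 : y⁻¹ * (a⁻¹ * x * a) = (a⁻¹ * x * a) * y⁻¹ := by
      rw [inv_mul_eq_iff_eq_mul, ← mul_assoc, ← h]
      group
    rw [← mul_assoc, e1, mul_assoc, e2, mul_assoc]
    group
  calc com (x * y) a = y⁻¹ * (x⁻¹ * (a⁻¹ * x * a)) * (a⁻¹ * y * a) := by
        unfold com; group
    _ = x⁻¹ * (a⁻¹ * x * a) * y⁻¹ * (a⁻¹ * y * a) := by rw [h2]
    _ = com x a * com y a := by unfold com; group

section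

variable (A : Subgroup G) (hA : ∀ x ∈ A, ∀ y ∈ A, x * y = y * x) (hN : A.Normal) (a : G)
include hA hN

omit hA in
theorem GBS_conj_mem {x : G} (hx : x ∈ A) : a⁻¹ * x * a ∈ A := by
  have := hN.conj_mem x hx a⁻¹
  simpa using this

omit hA in
theorem GBS_com_mem {x : G} (hx : x ∈ A) : com x a ∈ A := by
  have h : com x a = x⁻¹ * (a⁻¹ * x * a) := by unfold com; group
  rw [h]
  exact A.mul_mem (A.inv_mem hx) (GBS_conj_mem A hN a hx)

omit hA in
theorem GBS_icom_mem {x : G} (hx : x ∈ A) (n : ℕ) : icom x a n ∈ A := by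
  induction n with
  | zero => exact hx
  | succ n ih => exact GBS_com_mem A hN a ih

theorem GBS_icom_mul {x y : G} (hx : x ∈ A) (hy : y ∈ A) (n : ℕ) :
    icom (x * y) a n = icom x a n * icom y a n := by
  induction n with
  | zero => rfl
  | succ n ih =>
    show com (icom (x * y) a n) a = com (icom x a n) a * com (icom y a n) a
    rw [ih]
    have h1 := GBS_icom_mem A hN a hx n
    have h2 := GBS_icom_mem A hN a hy n
    exact GBS_com_mul _ _ _ (hA _ (GBS_conj_mem A hN a h1) _ h2) (hA _ h1 _ h2)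

/-- the image of `A` under `x ↦ [x, _i a]` -/
def GBS_D (i : ℕ) : Subgroup G where
  carrier := {g | ∃ x ∈ A, icom x a i = g}
  one_mem' := ⟨1, A.one_mem, icom_one a i⟩
  mul_mem' := by
    rintro _ _ ⟨x, hx, rfl⟩ ⟨y, hy, rfl⟩
    exact ⟨x * y, A.mul_mem hx hy, GBS_icom_mul A hA hN a hx hy i⟩
  inv_mem' := by
    rintro _ ⟨x, hx, rfl⟩
    refine ⟨x⁻¹, A.inv_mem hx, ?_⟩
    rw [eq_inv_iff_mul_eq_one, ← GBS_icom_mul A hA hN a (A.inv_mem hx) hx i, inv_mul_cancel,
      icom_one]

theorem GBS_D_succ_le (i : ℕ) : GBS_D A hA hN a (i + 1) ≤ GBS_D A hA hN a i := by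
  rintro _ ⟨x, hx, rfl⟩
  refine ⟨com x a, GBS_com_mem A hN a hx, ?_⟩
  have h := icom_add x a 1 i
  rw [add_comm 1 i] at h
  exact h.symm

theorem GBS_norm (i : ℕ) : GBS_D A hA hN a i ⊔ zpowers a ≤
    normalizer (GBS_D A hA hN a (i + 1) ⊔ zpowers a : Subgroup G) := by
  set H := GBS_D A hA hN a (i + 1) ⊔ zpowers a with hH
  have haH : a ∈ H := (le_sup_right : zpowers a ≤ H) (mem_zpowers a)
  have key : ∀ x ∈ GBS_D A hA hN a i, ∀ h ∈ H, x * h * x⁻¹ ∈ H := by
    rintro x ⟨y, hy, rfl⟩
    have hxA := GBS_icom_mem A hN a hy i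
    have hle : H ≤ H.comap (MulAut.conj (icom y a i)).toMonoidHom := by
      refine sup_le ?_ ?_
      · rintro _ ⟨z, hz, rfl⟩
        rw [mem_comap]
        have hzA := GBS_icom_mem A hN a hz (i + 1)
        have e : (MulAut.conj (icom y a i)).toMonoidHom (icom z a (i + 1)) = icom z a (i + 1) := by
          show icom y a i * icom z a (i + 1) * (icom y a i)⁻¹ = _
          rw [hA _ hxA _ hzA]
          group
        rw [e]
        exact (le_sup_left : GBS_D A hA hN a (i + 1) ≤ H) ⟨z, hz, rfl⟩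
      · rw [zpowers_le, mem_comap]
        have e : (MulAut.conj (icom y a i)).toMonoidHom a = a * icom y a (i + 1) := by
          show icom y a i * a * (icom y a i)⁻¹ = a * com (icom y a i) a
          have h1 := hA _ (GBS_conj_mem A hN a hxA) _ (A.inv_mem hxA)
          calc icom y a i * a * (icom y a i)⁻¹
              = a * ((a⁻¹ * icom y a i * a) * (icom y a i)⁻¹) := by group
            _ = a * ((icom y a i)⁻¹ * (a⁻¹ * icom y a i * a)) := by rw [h1]
            _ = a * com (icom y a i) a := by unfold com; group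
        rw [e]
        exact H.mul_mem haH ((le_sup_left : GBS_D A hA hN a (i + 1) ≤ H) ⟨y, hy, rfl⟩)
    intro h hh
    exact hle hh
  refine sup_le ?_ ?_
  · intro x hx
    rw [mem_normalizer_iff]
    intro h
    refine ⟨key x hx h, fun h2 => ?_⟩
    have h3 := key x⁻¹ ((GBS_D A hA hN a i).inv_mem hx) _ h2
    have e : x⁻¹ * (x * h * x⁻¹) * x⁻¹⁻¹ = h := by group
    rwa [e] at h3
  · rw [zpowers_le]
    exact le_normalizer haH

theorem GBS_sub (h0 : (A ⊔ zpowers a).IsSubnormal) (i : ℕ) :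
    (GBS_D A hA hN a i ⊔ zpowers a).IsSubnormal := by
  induction i with
  | zero =>
    have e : GBS_D A hA hN a 0 = A := by
      ext g
      constructor
      · rintro ⟨x, hx, rfl⟩
        exact hx
      · intro hg
        exact ⟨g, hg, rfl⟩
    rw [e]
    exact h0
  | succ i ih =>
    refine IsSubnormal.step _ _ (sup_le_sup_right (GBS_D_succ_le A hA hN a i) _) ih ?_
    exact normal_subgroupOf_of_le_normalizer (GBS_norm A hA hN a i)

theorem GBS_fin (h0 : (A ⊔ zpowers a).IsSubnormal) (n : ℕ) (hn : ∀ x : G, icom x a n = 1) :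
    (zpowers a).IsSubnormal := by
  have h := GBS_sub A hA hN a h0 n
  have e : GBS_D A hA hN a n = ⊥ := by
    rw [eq_bot_iff]
    rintro _ ⟨x, hx, rfl⟩
    exact mem_bot.mpr (hn x)
  rwa [e, bot_sup_eq] at h

end

theorem GBS_ind (d : ℕ) : ∀ (G : Type u) [Group G] (a : G), derivedSeries G d = ⊥ → BLE a →
    (zpowers a).IsSubnormal := by
  induction d with
  | zero =>
    intro G _ a h _
    have h1 : (⊤ : Subgroup G) = ⊥ := h
    have h2 : zpowers a = ⊤ := by
      rw [h1, eq_bot_iff, ← h1]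
      exact le_top
    rw [h2]
    exact IsSubnormal.top
  | succ d ih =>
    intro G _ a h hB
    have hN : (derivedSeries G d).Normal := derivedSeries_normal G d
    have hA : ∀ x ∈ derivedSeries G d, ∀ y ∈ derivedSeries G d, x * y = y * x := by
      intro x hx y hy
      have h1 : ⁅x, y⁆ ∈ derivedSeries G (d + 1) := by
        rw [derivedSeries_succ]
        exact commutator_mem_commutator hx hy
      rw [h, mem_bot, commutatorElement_eq_one_iff_mul_comm] at h1
      exact h1
    obtain ⟨n, hn⟩ := hB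
    have hq : derivedSeries (G ⧸ derivedSeries G d) d = ⊥ := by
      rw [← map_derivedSeries_eq (QuotientGroup.mk'_surjective (derivedSeries G d)) d]
      exact QuotientGroup.map_mk'_self _
    have hBq : BLE (QuotientGroup.mk' (derivedSeries G d) a) := by
      refine ⟨n, fun x => ?_⟩
      obtain ⟨y, rfl⟩ := QuotientGroup.mk'_surjective (derivedSeries G d) x
      rw [← map_icom, hn, map_one]
    have h3 := (ih _ _ hq hBq).comap (QuotientGroup.mk' (derivedSeries G d))
    rw [← MonoidHom.map_zpowers, QuotientGroup.comap_map_mk'] at h3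
    exact GBS_fin _ hA hN a h3 n hn

theorem GBS : GBS_stmt.{u} := by
  intro G _ a hS hB
  obtain ⟨d, hd⟩ := hS.solvable
  exact GBS_ind d G a hd hB

end Pool.Agent.helper80.EN
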